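import Mathlib

set_option autoImplicit false

namespace Pool.Agent.Results.MP_562107_co.TwoRows

open Polynomial

/-- Adjacent cells of the grid: they differ by `1` in exactly one coordinate. -/
def Adj {m n : ℕ} (u v : Fin m × Fin n) : Prop :=
  (u.1 = v.1 ∧ (u.2.val + 1 = v.2.val ∨ v.2.val + 1 = u.2.val)) ∨
  (u.2 = v.2 ∧ (u.1.val + 1 = v.1.val ∨ v.1.val + 1 = u.1.val))

/-- Height functions on the grid. -/
def IsHeight {m n : ℕ} (h : Fin m × Fin n → ℤ) : Prop :=
  (∀ u v, Adj u v → |h u - h v| = 1) ∧ ∀ u, u.1.val = 0 → u.2.val = 0 → h u = 0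

/-- Strict local minima. -/
def IsMin {m n : ℕ} (h : Fin m × Fin n → ℤ) (v : Fin m × Fin n) : Prop :=
  ∀ u, Adj u v → h u = h v + 1

/-- Strict local maxima. -/
def IsMax {m n : ℕ} (h : Fin m × Fin n → ℤ) (v : Fin m × Fin n) : Prop :=
  ∀ u, Adj u v → h u = h v - 1

/-- The number of height functions on the `m × n` grid with exactly `d` extrema. -/
noncomputable def E (d m n : ℕ) : ℕ :=
  Set.ncard {h : Fin m × Fin n → ℤ | IsHeight h ∧ Set.ncard {v | IsMin h v ∨ IsMax h v} = d}

/-- The series `∑_{n ≥ 2} E_d(m, n) z^n`. -/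
noncomputable def F (d m : ℕ) : PowerSeries ℚ :=
  PowerSeries.mk fun n => if 2 ≤ n then (E d m n : ℚ) else 0

/-- `F = c₁ / (1-z)^(d-1) + c₂ / (1-z)^(d-2) + R / (1-z)^(d-3)` with a polynomial `R`. -/
def Expansion (d : ℕ) (f : PowerSeries ℚ) (c₁ c₂ : ℚ) : Prop :=
  ∃ R : ℚ[X], (1 - PowerSeries.X) ^ (d - 1) * f =
    ((C c₁ + C c₂ * (1 - X) + (1 - X) ^ 2 * R : ℚ[X]) : PowerSeries ℚ)

/-! ### Transfer recursion -/

/-- columns -/
abbrev S := ℤ × ℤ

def minO (p : Option ℤ) (x : ℤ) (q : Option ℤ) (y : ℤ) : Prop :=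
  (∀ a ∈ p, a = x + 1) ∧ (∀ a ∈ q, a = x + 1) ∧ y = x + 1

def maxO (p : Option ℤ) (x : ℤ) (q : Option ℤ) (y : ℤ) : Prop :=
  (∀ a ∈ p, a = x - 1) ∧ (∀ a ∈ q, a = x - 1) ∧ y = x - 1

open Classical in
/-- number of extrema in the column `x` with neighbouring columns `p`, `q` -/
noncomputable def ext (p : Option S) (x : S) (q : Option S) : ℕ :=
  (if minO (p.map Prod.fst) x.1 (q.map Prod.fst) x.2 ∨
      maxO (p.map Prod.fst) x.1 (q.map Prod.fst) x.2 then 1 else 0) +
  (if minO (p.map Prod.snd) x.2 (q.map Prod.snd) x.1 ∨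
      maxO (p.map Prod.snd) x.2 (q.map Prod.snd) x.1 then 1 else 0)

noncomputable def total : Option S → List S → ℕ
  | _, [] => 0
  | p, x :: l => ext p x l.head? + total (some x) l

def nbrs (x : S) : Finset S :=
  ({(x.1 + 1, x.2 + 1), (x.1 - 1, x.2 - 1), (x.1 + 1, x.2 - 1), (x.1 - 1, x.2 + 1)} :
    Finset S).filter fun y => |y.1 - y.2| = 1

def Step (x y : S) : Prop := |x.1 - y.1| = 1 ∧ |x.2 - y.2| = 1 ∧ |y.1 - y.2| = 1

theorem mem_nbrs (x y : S) : y ∈ nbrs x ↔ Step x y := by
  obtain ⟨a, b⟩ := x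
  obtain ⟨c, d⟩ := y
  simp only [nbrs, Finset.mem_filter, Finset.mem_insert, Finset.mem_singleton, Prod.mk.injEq, Step]
  constructor
  · rintro ⟨h | h | h | h, h'⟩ <;> obtain ⟨rfl, rfl⟩ := h <;>
      refine ⟨?_, ?_, h'⟩ <;> simp
  · rintro ⟨h1, h2, h3⟩
    refine ⟨?_, h3⟩
    rw [abs_eq (by norm_num)] at h1 h2
    omega

def paths : ℕ → S → Finset (List S)
  | 0, _ => {[]}
  | n + 1, x => (nbrs x).biUnion fun y => (paths n y).image (List.cons y)

noncomputable def W (n : ℕ) (p : Option S) (x : S) : ℚ[X] :=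
  ∑ l ∈ paths n x, X ^ total p (x :: l)

theorem W_zero (p : Option S) (x : S) : W 0 p x = X ^ ext p x none := by
  simp [W, paths, total]

theorem W_succ (n : ℕ) (p : Option S) (x : S) :
    W (n + 1) p x = ∑ y ∈ nbrs x, X ^ ext p x (some y) * W n (some x) y := by
  unfold W
  rw [paths, Finset.sum_biUnion]
  · refine Finset.sum_congr rfl fun y _ => ?_
    rw [Finset.sum_image, Finset.mul_sum]
    · refine Finset.sum_congr rfl fun l _ => ?_
      rw [← pow_add]
      rfl
    · intro a _ b _ h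
      simpa using h
  · intro y _ z _ hyz
    rw [Function.onFun, Finset.disjoint_left]
    intro l hl hl'
    rw [Finset.mem_image] at hl hl'
    obtain ⟨a, _, rfl⟩ := hl
    obtain ⟨b, _, hb⟩ := hl'
    simp only [List.cons.injEq] at hb
    exact hyz hb.1.symm

noncomputable def UC : ℕ → ℚ[X] × ℚ[X]
  | 0 => (X, X ^ 2)
  | n + 1 => ((1 + X) * (UC n).1 + X * (UC n).2, 2 * X * (UC n).1 + X ^ 2 * (UC n).2)

def TC (p : Option S) (x : S) : Prop :=
  (∃ a, x = (a, a + 1) ∧ (p = none ∨ p = some (a + 1, a))) ∨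
  (∃ a, x = (a, a - 1) ∧ (p = none ∨ p = some (a - 1, a)))

def TU (p : Option S) (x : S) : Prop :=
  (∃ a, x = (a, a + 1) ∧ (p = some (a - 1, a) ∨ p = some (a + 1, a + 2))) ∨
  (∃ a, x = (a, a - 1) ∧ (p = some (a - 1, a - 2) ∨ p = some (a + 1, a)))

theorem nbrs_up (a : ℤ) : nbrs (a, a + 1) = {(a + 1, a + 2), (a - 1, a), (a + 1, a)} := by
  ext ⟨c, d⟩
  rw [mem_nbrs]
  simp only [Step, Finset.mem_insert, Finset.mem_singleton, Prod.mk.injEq]
  rw [abs_eq (by norm_num), abs_eq (by norm_num), abs_eq (by norm_num)]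
  omega

theorem nbrs_down (a : ℤ) : nbrs (a, a - 1) = {(a + 1, a), (a - 1, a - 2), (a - 1, a)} := by
  ext ⟨c, d⟩
  rw [mem_nbrs]
  simp only [Step, Finset.mem_insert, Finset.mem_singleton, Prod.mk.injEq]
  rw [abs_eq (by norm_num), abs_eq (by norm_num), abs_eq (by norm_num)]
  omega

theorem sum_up (a : ℤ) (f : S → ℚ[X]) :
    ∑ y ∈ nbrs (a, a + 1), f y = f (a + 1, a + 2) + f (a - 1, a) + f (a + 1, a) := by
  rw [nbrs_up, Finset.sum_insert, Finset.sum_insert, Finset.sum_singleton, add_assoc]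
  · simp only [Finset.mem_singleton, Prod.mk.injEq]; omega
  · simp only [Finset.mem_insert, Finset.mem_singleton, Prod.mk.injEq]; omega

theorem sum_down (a : ℤ) (f : S → ℚ[X]) :
    ∑ y ∈ nbrs (a, a - 1), f y = f (a + 1, a) + f (a - 1, a - 2) + f (a - 1, a) := by
  rw [nbrs_down, Finset.sum_insert, Finset.sum_insert, Finset.sum_singleton, add_assoc]
  · simp only [Finset.mem_singleton, Prod.mk.injEq]; omega
  · simp only [Finset.mem_insert, Finset.mem_singleton, Prod.mk.injEq]; omega

theorem ext_nn (x : S) : ext none x none =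
    (if x.2 = x.1 + 1 ∨ x.2 = x.1 - 1 then 1 else 0) +
    (if x.1 = x.2 + 1 ∨ x.1 = x.2 - 1 then 1 else 0) := by
  simp [ext, minO, maxO]

theorem ext_ns (x q : S) : ext none x (some q) =
    (if (q.1 = x.1 + 1 ∧ x.2 = x.1 + 1) ∨ (q.1 = x.1 - 1 ∧ x.2 = x.1 - 1) then 1 else 0) +
    (if (q.2 = x.2 + 1 ∧ x.1 = x.2 + 1) ∨ (q.2 = x.2 - 1 ∧ x.1 = x.2 - 1) then 1 else 0) := by
  simp [ext, minO, maxO]

theorem ext_sn (p x : S) : ext (some p) x none =
    (if (p.1 = x.1 + 1 ∧ x.2 = x.1 + 1) ∨ (p.1 = x.1 - 1 ∧ x.2 = x.1 - 1) then 1 else 0) +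
    (if (p.2 = x.2 + 1 ∧ x.1 = x.2 + 1) ∨ (p.2 = x.2 - 1 ∧ x.1 = x.2 - 1) then 1 else 0) := by
  simp [ext, minO, maxO]

theorem ext_ss (p x q : S) : ext (some p) x (some q) =
    (if (p.1 = x.1 + 1 ∧ q.1 = x.1 + 1 ∧ x.2 = x.1 + 1) ∨
      (p.1 = x.1 - 1 ∧ q.1 = x.1 - 1 ∧ x.2 = x.1 - 1) then 1 else 0) +
    (if (p.2 = x.2 + 1 ∧ q.2 = x.2 + 1 ∧ x.1 = x.2 + 1) ∨
      (p.2 = x.2 - 1 ∧ q.2 = x.2 - 1 ∧ x.1 = x.2 - 1) then 1 else 0) := by
  simp [ext, minO, maxO]

theorem W_eq (n : ℕ) : ∀ p x, (TC p x → W n p x = (UC n).2) ∧ (TU p x → W n p x = (UC n).1) := by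
  induction n with
  | zero =>
    intro p x
    simp only [W_zero, UC]
    constructor
    · intro h
      have : ext p x none = 2 := by
        rcases h with ⟨a, rfl, rfl | rfl⟩ | ⟨a, rfl, rfl | rfl⟩ <;>
          (first | rw [ext_nn] | rw [ext_sn]) <;> dsimp only <;> split_ifs <;> omega
      rw [this]
    · intro h
      have : ext p x none = 1 := by
        rcases h with ⟨a, rfl, rfl | rfl⟩ | ⟨a, rfl, rfl | rfl⟩ <;>
          rw [ext_sn] <;> dsimp only <;> split_ifs <;> omega
      rw [this, pow_one]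
  | succ n ih =>
    intro p x
    rw [W_succ]
    constructor
    · rintro (⟨a, rfl, hp⟩ | ⟨a, rfl, hp⟩)
      · rw [sum_up]
        have e1 : ext p (a, a + 1) (some (a + 1, a + 2)) = 1 := by
          rcases hp with rfl | rfl <;> (first | rw [ext_ns] | rw [ext_ss]) <;> dsimp only <;> split_ifs <;> omega
        have e2 : ext p (a, a + 1) (some (a - 1, a)) = 1 := by
          rcases hp with rfl | rfl <;> (first | rw [ext_ns] | rw [ext_ss]) <;> dsimp only <;> split_ifs <;> omega
        have e3 : ext p (a, a + 1) (some (a + 1, a)) = 2 := by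
          rcases hp with rfl | rfl <;> (first | rw [ext_ns] | rw [ext_ss]) <;> dsimp only <;> split_ifs <;> omega
        rw [e1, e2, e3, (ih _ _).2 (Or.inl ⟨a + 1, by ring_nf, Or.inl (by ring_nf)⟩),
          (ih _ _).2 (Or.inl ⟨a - 1, by ring_nf, Or.inr (by ring_nf)⟩),
          (ih _ _).1 (Or.inr ⟨a + 1, by ring_nf, Or.inr (by ring_nf)⟩)]
        simp only [UC]
        ring
      · rw [sum_down]
        have e1 : ext p (a, a - 1) (some (a + 1, a)) = 1 := by
          rcases hp with rfl | rfl <;> (first | rw [ext_ns] | rw [ext_ss]) <;> dsimp only <;> split_ifs <;> omega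
        have e2 : ext p (a, a - 1) (some (a - 1, a - 2)) = 1 := by
          rcases hp with rfl | rfl <;> (first | rw [ext_ns] | rw [ext_ss]) <;> dsimp only <;> split_ifs <;> omega
        have e3 : ext p (a, a - 1) (some (a - 1, a)) = 2 := by
          rcases hp with rfl | rfl <;> (first | rw [ext_ns] | rw [ext_ss]) <;> dsimp only <;> split_ifs <;> omega
        rw [e1, e2, e3, (ih _ _).2 (Or.inr ⟨a + 1, by ring_nf, Or.inl (by ring_nf)⟩),
          (ih _ _).2 (Or.inr ⟨a - 1, by ring_nf, Or.inr (by ring_nf)⟩),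
          (ih _ _).1 (Or.inl ⟨a - 1, by ring_nf, Or.inr (by ring_nf)⟩)]
        simp only [UC]
        ring
    · rintro (⟨a, rfl, hp⟩ | ⟨a, rfl, hp⟩)
      · rw [sum_up]
        have e3 : ext p (a, a + 1) (some (a + 1, a)) = 1 := by
          rcases hp with rfl | rfl <;> rw [ext_ss] <;> dsimp only <;> split_ifs <;> omega
        have e12 : (ext p (a, a + 1) (some (a + 1, a + 2)) = 0 ∧
            ext p (a, a + 1) (some (a - 1, a)) = 1) ∨
            (ext p (a, a + 1) (some (a + 1, a + 2)) = 1 ∧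
            ext p (a, a + 1) (some (a - 1, a)) = 0) := by
          rcases hp with rfl | rfl
          · left
            constructor <;> rw [ext_ss] <;> dsimp only <;> split_ifs <;> omega
          · right
            constructor <;> rw [ext_ss] <;> dsimp only <;> split_ifs <;> omega
        rw [e3, (ih _ _).2 (Or.inl ⟨a + 1, by ring_nf, Or.inl (by ring_nf)⟩),
          (ih _ _).2 (Or.inl ⟨a - 1, by ring_nf, Or.inr (by ring_nf)⟩),
          (ih _ _).1 (Or.inr ⟨a + 1, by ring_nf, Or.inr (by ring_nf)⟩)]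
        simp only [UC]
        rcases e12 with ⟨h1, h2⟩ | ⟨h1, h2⟩ <;> rw [h1, h2] <;> ring
      · rw [sum_down]
        have e3 : ext p (a, a - 1) (some (a - 1, a)) = 1 := by
          rcases hp with rfl | rfl <;> rw [ext_ss] <;> dsimp only <;> split_ifs <;> omega
        have e12 : (ext p (a, a - 1) (some (a + 1, a)) = 0 ∧
            ext p (a, a - 1) (some (a - 1, a - 2)) = 1) ∨
            (ext p (a, a - 1) (some (a + 1, a)) = 1 ∧
            ext p (a, a - 1) (some (a - 1, a - 2)) = 0) := by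
          rcases hp with rfl | rfl
          · left
            constructor <;> rw [ext_ss] <;> dsimp only <;> split_ifs <;> omega
          · right
            constructor <;> rw [ext_ss] <;> dsimp only <;> split_ifs <;> omega
        rw [e3, (ih _ _).2 (Or.inr ⟨a + 1, by ring_nf, Or.inl (by ring_nf)⟩),
          (ih _ _).2 (Or.inr ⟨a - 1, by ring_nf, Or.inr (by ring_nf)⟩),
          (ih _ _).1 (Or.inl ⟨a - 1, by ring_nf, Or.inr (by ring_nf)⟩)]
        simp only [UC]
        rcases e12 with ⟨h1, h2⟩ | ⟨h1, h2⟩ <;> rw [h1, h2] <;> ring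

/-! ### The grid -/

def prv (p : Option S) (L : List S) : ℕ → Option S
  | 0 => p
  | j + 1 => L[j]?

theorem total_eq (L : List S) : ∀ p, total p L =
    ∑ j ∈ Finset.range L.length, ext (prv p L j) (L[j]?.getD (0, 0)) L[j + 1]? := by
  induction L with
  | nil => intro p; simp [total]
  | cons x l ih =>
    intro p
    rw [total, ih, List.length_cons, Finset.sum_range_succ', add_comm]
    congr 1
    · refine Finset.sum_congr rfl fun j _ => ?_
      rcases j with _ | j <;> simp [prv]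
    · simp [prv, List.head?_eq_getElem?]

def Chn (L : List S) : Prop := ∀ j x y, L[j]? = some x → L[j + 1]? = some y → Step x y

theorem chn_cons (x : S) (l : List S) :
    Chn (x :: l) ↔ (∀ y, l.head? = some y → Step x y) ∧ Chn l := by
  constructor
  · intro h
    refine ⟨fun y hy => h 0 x y (by simp) (by simpa [List.head?_eq_getElem?] using hy), ?_⟩
    intro j a b ha hb
    exact h (j + 1) a b (by simpa using ha) (by simpa using hb)
  · rintro ⟨h1, h2⟩ j a b ha hb
    rcases j with _ | j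
    · have ha' : x = a := by simpa using ha
      subst ha'
      exact h1 b (by simpa [List.head?_eq_getElem?] using hb)
    · exact h2 j a b (by simpa using ha) (by simpa using hb)

theorem mem_paths (n : ℕ) : ∀ x l, l ∈ paths n x ↔ l.length = n ∧ Chn (x :: l) := by
  induction n with
  | zero =>
    intro x l
    simp only [paths, Finset.mem_singleton, List.length_eq_zero_iff]
    constructor
    · rintro rfl
      refine ⟨rfl, ?_⟩
      intro j a b _ hb
      simp at hb
    · exact fun h => h.1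
  | succ n ih =>
    intro x l
    simp only [paths, Finset.mem_biUnion, Finset.mem_image, mem_nbrs]
    constructor
    · rintro ⟨y, hy, l', hl', rfl⟩
      rw [ih] at hl'
      refine ⟨by simp [hl'.1], ?_⟩
      rw [chn_cons]
      refine ⟨?_, hl'.2⟩
      intro z hz
      have : y = z := by simpa using hz
      subst this
      exact hy
    · rintro ⟨h1, h2⟩
      rcases l with _ | ⟨y, l'⟩
      · simp at h1
      · rw [chn_cons] at h2
        refine ⟨y, h2.1 y (by simp), l', ?_, rfl⟩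
        rw [ih]
        exact ⟨by simpa using h1, h2.2⟩

/-- the list of columns -/
def cols {N : ℕ} (h : Fin 2 × Fin N → ℤ) : List S := List.ofFn fun j => (h (0, j), h (1, j))

theorem cols_get {N : ℕ} (h : Fin 2 × Fin N → ℤ) (j : ℕ) : (cols h)[j]? =
    if hj : j < N then some (h (0, ⟨j, hj⟩), h (1, ⟨j, hj⟩)) else none := by
  unfold cols
  rw [List.getElem?_ofFn]

theorem nb_iff {N : ℕ} (h : Fin 2 × Fin N → ℤ) (j : Fin N) (c : ℤ) (i i' : Fin 2) (hi : i' ≠ i) :
    (∀ u, Adj u (i, j) → h u = c) ↔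
      (∀ k : Fin N, k.val + 1 = j.val → h (i, k) = c) ∧
      (∀ k : Fin N, j.val + 1 = k.val → h (i, k) = c) ∧ h (i', j) = c := by
  constructor
  · intro H
    refine ⟨fun k hk => H (i, k) (Or.inl ⟨rfl, Or.inl hk⟩),
      fun k hk => H (i, k) (Or.inl ⟨rfl, Or.inr hk⟩), H (i', j) (Or.inr ⟨rfl, ?_⟩)⟩
    have h1 : i'.val ≠ i.val := fun h => hi (Fin.ext h)
    have := i.2
    have := i'.2
    dsimp only
    omega
  · rintro ⟨h1, h2, h3⟩ ⟨a, b⟩ (⟨ha, hb⟩ | ⟨hb, ha⟩)
    · dsimp only at ha hb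
      subst ha
      rcases hb with hb | hb
      · exact h1 b hb
      · exact h2 b hb
    · dsimp only at ha hb
      subst hb
      have : a = i' := by
        apply Fin.ext
        have h4 : i'.val ≠ i.val := fun h => hi (Fin.ext h)
        have := i.2
        have := i'.2
        have := a.2
        omega
      subst this
      exact h3

theorem prv_iff {N : ℕ} (h : Fin 2 × Fin N → ℤ) (j : Fin N) (c : ℤ) (i : Fin 2) (f : S → ℤ)
    (hf : ∀ k, f (h (0, k), h (1, k)) = h (i, k)) :
    (∀ a ∈ (prv none (cols h) j.val).map f, a = c) ↔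
      ∀ k : Fin N, k.val + 1 = j.val → h (i, k) = c := by
  obtain ⟨j, hj⟩ := j
  rcases j with _ | j
  · simp [prv]
  · have hj' : j < N := by omega
    simp only [prv, cols_get, hj', dite_true, Option.map_some, Option.mem_def, Option.some.injEq,
      forall_eq', hf]
    constructor
    · intro H k hk
      have : k = ⟨j, hj'⟩ := Fin.ext (by simpa using hk)
      rw [this]; exact H
    · intro H
      exact H ⟨j, hj'⟩ rfl

theorem nxt_iff {N : ℕ} (h : Fin 2 × Fin N → ℤ) (j : Fin N) (c : ℤ) (i : Fin 2) (f : S → ℤ)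
    (hf : ∀ k, f (h (0, k), h (1, k)) = h (i, k)) :
    (∀ a ∈ ((cols h)[j.val + 1]?).map f, a = c) ↔
      ∀ k : Fin N, j.val + 1 = k.val → h (i, k) = c := by
  obtain ⟨j, hj⟩ := j
  by_cases hj' : j + 1 < N
  · simp only [cols_get, hj', dite_true, Option.map_some, Option.mem_def, Option.some.injEq,
      forall_eq', hf]
    constructor
    · intro H k hk
      have : k = ⟨j + 1, hj'⟩ := Fin.ext (by simpa using hk.symm)
      rw [this]; exact H
    · intro H
      exact H ⟨j + 1, hj'⟩ rfl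
  · simp only [cols_get, hj', dite_false, Option.map_none]
    constructor
    · intro _ k hk
      have := k.2
      omega
    · intro _ a ha
      simp at ha

theorem ncard_eq {N : ℕ} (h : Fin 2 × Fin N → ℤ) :
    Set.ncard {v | IsMin h v ∨ IsMax h v} = total none (cols h) := by
  classical
  rw [total_eq]
  have hlen : (cols h).length = N := by simp [cols]
  rw [hlen, Finset.sum_range]
  rw [Set.ncard_eq_toFinset_card']
  have : ({v | IsMin h v ∨ IsMax h v} : Set (Fin 2 × Fin N)).toFinset =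
      Finset.univ.filter fun v => IsMin h v ∨ IsMax h v := by
    ext v; simp
  rw [this, Finset.card_filter, Fintype.sum_prod_type, Finset.sum_comm]
  refine Finset.sum_congr rfl fun j _ => ?_
  rw [Fin.sum_univ_two]
  have h0 : ((cols h)[j.val]?).getD (0, 0) = (h (0, j), h (1, j)) := by
    rw [cols_get]; simp
  rw [h0]
  unfold ext minO maxO
  have e1 := fun c => nb_iff h j c 0 1 (by decide)
  have e2 := fun c => nb_iff h j c 1 0 (by decide)
  have p1 := fun c => prv_iff h j c 0 Prod.fst (fun _ => rfl)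
  have p2 := fun c => prv_iff h j c 1 Prod.snd (fun _ => rfl)
  have q1 := fun c => nxt_iff h j c 0 Prod.fst (fun _ => rfl)
  have q2 := fun c => nxt_iff h j c 1 Prod.snd (fun _ => rfl)
  simp only [p1, p2, q1, q2, IsMin, IsMax, e1, e2]

theorem cols_inj {N : ℕ} : Function.Injective (cols (N := N)) := by
  intro h h' hh
  have h1 := List.ofFn_injective hh
  ext ⟨i, j⟩
  have h2 := congrFun h1 j
  rw [Prod.mk.injEq] at h2
  fin_cases i
  · exact h2.1
  · exact h2.2

theorem height_iff {N : ℕ} (h : Fin 2 × Fin (N + 1) → ℤ) : IsHeight h ↔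
    ∃ x l, cols h = x :: l ∧ (x = (0, 1) ∨ x = (0, -1)) ∧ l ∈ paths N x := by
  have hc : ∃ x l, cols h = x :: l ∧ x = (h (0, 0), h (1, 0)) := by
    have hlen : (cols h).length = N + 1 := by simp [cols]
    rcases hL : cols h with _ | ⟨x, l⟩
    · rw [hL] at hlen; simp at hlen
    · refine ⟨x, l, rfl, ?_⟩
      have h1 := cols_get h 0
      rw [hL] at h1
      simpa using h1
  obtain ⟨x, l, hxl, hx⟩ := hc
  have hlen : l.length = N := by
    have h1 : (cols h).length = N + 1 := by simp [cols]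
    rw [hxl] at h1
    simpa using h1
  constructor
  · rintro ⟨h1, h2⟩
    refine ⟨x, l, hxl, ?_, ?_⟩
    · have e1 := h2 (0, 0) rfl rfl
      have e2 := h1 (1, 0) (0, 0) (Or.inr ⟨rfl, Or.inr rfl⟩)
      rw [e1, sub_zero, abs_eq (by norm_num)] at e2
      rw [hx, e1]
      rcases e2 with e2 | e2 <;> simp [e2]
    · rw [mem_paths]
      refine ⟨hlen, ?_⟩
      rw [← hxl]
      intro j a b ha hb
      rw [cols_get] at ha hb
      by_cases hj : j + 1 < N + 1
      · have hj' : j < N + 1 := by omega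
        rw [dif_pos hj', Option.some.injEq] at ha
        rw [dif_pos hj, Option.some.injEq] at hb
        subst ha hb
        refine ⟨h1 _ _ (Or.inl ⟨rfl, Or.inl rfl⟩), h1 _ _ (Or.inl ⟨rfl, Or.inl rfl⟩),
          h1 _ _ (Or.inr ⟨rfl, Or.inl rfl⟩)⟩
      · rw [dif_neg hj] at hb
        simp at hb
  · rintro ⟨x', l', hxl', hx', hl'⟩
    rw [hxl, List.cons.injEq] at hxl'
    obtain ⟨rfl, rfl⟩ := hxl'
    rw [mem_paths, ← hxl] at hl'
    have hch := hl'.2
    have hvert : ∀ j : Fin (N + 1), |h (0, j) - h (1, j)| = 1 := by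
      rintro ⟨j, hj⟩
      rcases j with _ | j
      · change |h (0, 0) - h (1, 0)| = 1
        rw [hx, Prod.mk.injEq, Prod.mk.injEq] at hx'
        rcases hx' with ⟨h1, h2⟩ | ⟨h1, h2⟩ <;> rw [h1, h2] <;> norm_num
      · have hj' : j < N + 1 := by omega
        exact (hch j _ _ (by rw [cols_get, dif_pos hj']) (by rw [cols_get, dif_pos hj])).2.2
    have hstep : ∀ j k : Fin (N + 1), j.val + 1 = k.val →
        |h (0, j) - h (0, k)| = 1 ∧ |h (1, j) - h (1, k)| = 1 := by
      rintro ⟨j, hj⟩ ⟨k, hk⟩ hjk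
      dsimp only at hjk
      subst hjk
      have := hch j _ _ (by rw [cols_get, dif_pos hj]) (by rw [cols_get, dif_pos hk])
      exact ⟨this.1, this.2.1⟩
    refine ⟨?_, ?_⟩
    · rintro ⟨i, j⟩ ⟨i', j'⟩ (⟨h1, h2⟩ | ⟨h1, h2⟩)
      · dsimp only at h1 h2
        subst h1
        rcases h2 with h2 | h2
        · fin_cases i
          · exact (hstep _ _ h2).1
          · exact (hstep _ _ h2).2
        · rw [abs_sub_comm]
          fin_cases i
          · exact (hstep _ _ h2).1
          · exact (hstep _ _ h2).2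
      · dsimp only at h1 h2
        subst h1
        have := hvert j
        fin_cases i <;> fin_cases i' <;> simp at h2
        · exact this
        · rw [abs_sub_comm]; exact this
    · rintro ⟨i, j⟩ hi hj
      have hi' : i = 0 := Fin.ext hi
      have hj' : j = 0 := Fin.ext hj
      subst hi' hj'
      rw [hx, Prod.mk.injEq, Prod.mk.injEq] at hx'
      rcases hx' with ⟨h1, _⟩ | ⟨h1, _⟩ <;> exact h1

theorem E_eq (d N : ℕ) : (E d 2 (N + 1) : ℚ) = 2 * ((UC N).2).coeff d := by
  classical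
  let A : S → Finset (List S) := fun x =>
    ((paths N x).filter fun l => total none (x :: l) = d).image (List.cons x)
  have hA : ∀ x, (A x).card = ((paths N x).filter fun l => total none (x :: l) = d).card :=
    fun x => Finset.card_image_of_injective _ (List.cons_injective)
  have hdisj : Disjoint (A (0, 1)) (A (0, -1)) := by
    rw [Finset.disjoint_left]
    intro L h1 h2
    simp only [A, Finset.mem_image] at h1 h2
    obtain ⟨l, _, rfl⟩ := h1
    obtain ⟨l', _, h3⟩ := h2
    simp at h3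
  have hset : cols '' {h : Fin 2 × Fin (N + 1) → ℤ |
      IsHeight h ∧ Set.ncard {v | IsMin h v ∨ IsMax h v} = d} =
      ((A (0, 1) ∪ A (0, -1) : Finset (List S)) : Set (List S)) := by
    ext L
    simp only [Set.mem_image, Set.mem_ofPred_eq, Finset.coe_union, Set.mem_union, Finset.mem_coe, A,
      Finset.mem_image, Finset.mem_filter]
    constructor
    · rintro ⟨h, ⟨h1, h2⟩, rfl⟩
      rw [ncard_eq] at h2
      rw [height_iff] at h1
      obtain ⟨x, l, hxl, hx, hl⟩ := h1
      rw [hxl] at h2 ⊢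
      rcases hx with rfl | rfl
      · exact Or.inl ⟨l, ⟨hl, h2⟩, rfl⟩
      · exact Or.inr ⟨l, ⟨hl, h2⟩, rfl⟩
    · intro H
      obtain ⟨x, hx, l, hl, hd, rfl⟩ : ∃ x, (x = (0, 1) ∨ x = (0, -1)) ∧ ∃ l,
          l ∈ paths N x ∧ total none (x :: l) = d ∧ x :: l = L := by
        rcases H with ⟨l, ⟨h1, h2⟩, h3⟩ | ⟨l, ⟨h1, h2⟩, h3⟩
        · exact ⟨_, Or.inl rfl, l, h1, h2, h3⟩
        · exact ⟨_, Or.inr rfl, l, h1, h2, h3⟩
      have hlen : (x :: l).length = N + 1 := by
        rw [List.length_cons, ((mem_paths N x l).1 hl).1]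
      let h : Fin 2 × Fin (N + 1) → ℤ := fun v =>
        if v.1 = 0 then ((x :: l)[v.2.val]'(by rw [hlen]; exact v.2.2)).1
        else ((x :: l)[v.2.val]'(by rw [hlen]; exact v.2.2)).2
      have hcols : cols h = x :: l := by
        apply List.ext_getElem?
        intro j
        rw [cols_get]
        by_cases hj : j < N + 1
        · rw [dif_pos hj, List.getElem?_eq_getElem (by rw [hlen]; exact hj)]
          simp [h]
        · rw [dif_neg hj, List.getElem?_eq_none (by rw [hlen]; omega)]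
      refine ⟨h, ⟨?_, ?_⟩, hcols⟩
      · rw [height_iff]
        exact ⟨x, l, hcols, hx, hl⟩
      · rw [ncard_eq, hcols]; exact hd
  have h1 : E d 2 (N + 1) = (A (0, 1)).card + (A (0, -1)).card := by
    rw [E, ← Set.ncard_image_of_injective _ cols_inj, hset, Set.ncard_coe_finset,
      Finset.card_union_of_disjoint hdisj]
  have h2 : ∀ x, ((A x).card : ℚ) = (W N none x).coeff d := by
    intro x
    rw [hA, W, Polynomial.finsetSum_coeff, Finset.card_filter]
    push_cast
    refine Finset.sum_congr rfl fun l _ => ?_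
    rw [Polynomial.coeff_X_pow]
    by_cases h : total none (x :: l) = d
    · rw [if_pos h, if_pos h.symm]
    · rw [if_neg h, if_neg (Ne.symm h)]
  rw [h1, Nat.cast_add, h2, h2, (W_eq N none (0, 1)).1 (Or.inl ⟨0, by norm_num, Or.inl rfl⟩),
    (W_eq N none (0, -1)).1 (Or.inr ⟨0, by norm_num, Or.inl rfl⟩)]
  ring

/-! ### Generating functions -/

noncomputable def us (e : ℕ) : PowerSeries ℚ := PowerSeries.mk fun n => ((UC n).1).coeff e

noncomputable def cs (e : ℕ) : PowerSeries ℚ := PowerSeries.mk fun n => ((UC n).2).coeff e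

theorem coeffU (n e : ℕ) : ((UC (n + 1)).1).coeff (e + 1) =
    ((UC n).1).coeff (e + 1) + ((UC n).1).coeff e + ((UC n).2).coeff e := by
  simp only [UC]
  rw [Polynomial.coeff_add, add_mul, one_mul, Polynomial.coeff_add, Polynomial.coeff_X_mul,
    Polynomial.coeff_X_mul]

theorem coeffC (n e : ℕ) : ((UC (n + 1)).2).coeff (e + 2) =
    2 * ((UC n).1).coeff (e + 1) + ((UC n).2).coeff e := by
  simp only [UC]
  have h1 : (2 * X * (UC n).1 + X ^ 2 * (UC n).2 : ℚ[X]) =
      X * (C 2 * (UC n).1 + X * (UC n).2) := by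
    rw [map_ofNat]; ring
  rw [h1, Polynomial.coeff_X_mul, Polynomial.coeff_add, Polynomial.coeff_C_mul,
    Polynomial.coeff_X_mul]

theorem coeff0 (n : ℕ) : ((UC n).1).coeff 0 = 0 ∧ ((UC n).2).coeff 0 = 0 ∧
    ((UC n).2).coeff 1 = 0 := by
  induction n with
  | zero => simp [UC, Polynomial.coeff_X_pow]
  | succ n ih =>
    obtain ⟨h1, h2, h3⟩ := ih
    have e1 : (2 * X * (UC n).1 + X ^ 2 * (UC n).2 : ℚ[X]) =
      X * (C 2 * (UC n).1 + X * (UC n).2) := by
      rw [map_ofNat]; ring
    refine ⟨?_, ?_, ?_⟩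
    · simp only [UC]
      rw [Polynomial.coeff_add, add_mul, one_mul, Polynomial.coeff_add, h1]
      simp
    · simp only [UC]
      rw [e1]; simp
    · simp only [UC]
      rw [e1, Polynomial.coeff_X_mul, Polynomial.coeff_add, Polynomial.coeff_C_mul, h1]
      simp

theorem us_zero : us 0 = 0 := by
  ext n; simp [us, (coeff0 n).1]

theorem cs_zero : cs 0 = 0 := by
  ext n; simp [cs, (coeff0 n).2.1]

theorem cs_one : cs 1 = 0 := by
  ext n; simp [cs, (coeff0 n).2.2]

theorem us_rec (e : ℕ) : (1 - PowerSeries.X) * us (e + 1) =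
    (if e = 0 then 1 else 0) + PowerSeries.X * (us e + cs e) := by
  have h : us (e + 1) = (if e = 0 then 1 else 0) +
      PowerSeries.X * (us (e + 1) + us e + cs e) := by
    ext n
    rcases n with _ | n
    · simp only [us, PowerSeries.coeff_mk, UC, Polynomial.coeff_X]
      by_cases he : e = 0
      · subst he; simp
      · simp [he]
    · rw [map_add, PowerSeries.coeff_succ_X_mul]
      simp only [us, cs, PowerSeries.coeff_mk, map_add]
      rw [coeffU]
      by_cases he : e = 0
      · subst he; simp [PowerSeries.coeff_one]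
      · simp [he]
  rw [sub_mul, one_mul]
  nth_rewrite 1 [h]
  ring

theorem cs_rec (e : ℕ) : cs (e + 2) =
    (if e = 0 then 1 else 0) + PowerSeries.X * (2 * us (e + 1) + cs e) := by
  ext n
  rcases n with _ | n
  · simp only [cs, PowerSeries.coeff_mk, UC, Polynomial.coeff_X_pow]
    by_cases he : e = 0
    · subst he; simp
    · simp [he]
  · rw [map_add, PowerSeries.coeff_succ_X_mul]
    have h2 : (2 : PowerSeries ℚ) = PowerSeries.C 2 := (map_ofNat _ 2).symm
    rw [map_add, h2, PowerSeries.coeff_C_mul]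
    simp only [us, cs, PowerSeries.coeff_mk]
    rw [coeffC]
    by_cases he : e = 0
    · subst he; simp [PowerSeries.coeff_one]
    · simp [he]

theorem coe_one_sub : ((1 - X : ℚ[X]) : PowerSeries ℚ) = 1 - PowerSeries.X := by
  rw [Polynomial.coe_sub, Polynomial.coe_one, Polynomial.coe_X]

theorem main_ind (e : ℕ) : ∃ (R S T : ℚ[X]) (b : ℚ),
    (1 - PowerSeries.X) ^ (e + 2) * us (e + 2) =
      ((1 + C ((e : ℚ) - 1) * (1 - X) + (1 - X) ^ 2 * R : ℚ[X]) : PowerSeries ℚ) ∧
    (1 - PowerSeries.X) ^ (e + 1) * cs (e + 2) =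
      ((2 + C b * (1 - X) + (1 - X) ^ 2 * S : ℚ[X]) : PowerSeries ℚ) ∧
    (1 - PowerSeries.X) ^ e * cs (e + 1) = (T : PowerSeries ℚ) ∧
    (1 ≤ e → b = 2 * e - 6) := by
  induction e with
  | zero =>
    have h1 : (1 - PowerSeries.X) * us 1 = 1 := by
      rw [us_rec 0, us_zero, cs_zero]; simp
    have h2 : (1 - PowerSeries.X) * us 2 = PowerSeries.X * us 1 := by
      rw [us_rec 1, cs_one]; simp
    have h3 : cs 2 = 1 + PowerSeries.X * (2 * us 1) := by
      rw [cs_rec 0, cs_zero]; simp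
    refine ⟨0, 0, 0, -1, ?_, ?_, ?_, by simp⟩
    · have : ((1 + C (((0 : ℕ) : ℚ) - 1) * (1 - X) + (1 - X) ^ 2 * 0 : ℚ[X]) : PowerSeries ℚ)
          = PowerSeries.X := by
        rw [← Polynomial.coe_X]
        congr 1
        simp
      rw [this]
      calc (1 - PowerSeries.X) ^ 2 * us 2
          = (1 - PowerSeries.X) * ((1 - PowerSeries.X) * us 2) := by ring
        _ = PowerSeries.X * ((1 - PowerSeries.X) * us 1) := by rw [h2]; ring
        _ = PowerSeries.X := by rw [h1, mul_one]
    · have : ((2 + C (-1 : ℚ) * (1 - X) + (1 - X) ^ 2 * 0 : ℚ[X]) : PowerSeries ℚ)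
          = 1 + PowerSeries.X := by
        rw [← Polynomial.coe_X, ← Polynomial.coe_one, ← Polynomial.coe_add]
        congr 1
        simp
        ring
      rw [this, h3]
      calc (1 - PowerSeries.X) ^ (0 + 1) * (1 + PowerSeries.X * (2 * us 1))
          = (1 - PowerSeries.X) + 2 * PowerSeries.X * ((1 - PowerSeries.X) * us 1) := by ring
        _ = 1 + PowerSeries.X := by rw [h1]; ring
    · rw [cs_one]; simp
  | succ e ih =>
    obtain ⟨R, S, T, b, h1, h2, h3, h4⟩ := ih
    have hX : (PowerSeries.X : PowerSeries ℚ) = ((X : ℚ[X]) : PowerSeries ℚ) :=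
      Polynomial.coe_X.symm
    refine ⟨-C ((e : ℚ) - 1) + X * R - 2 + X * (C b + (1 - X) * S) , 
      -C (2 * ((e : ℚ) - 1)) + 2 * X * R + X * T,
      2 + C b * (1 - X) + (1 - X) ^ 2 * S, 2 * ((e : ℚ) - 1) - 2, ?_, ?_, h2, ?_⟩
    · have h5 := us_rec (e + 2)
      rw [if_neg (by omega), zero_add] at h5
      calc (1 - PowerSeries.X) ^ (e + 1 + 2) * us (e + 1 + 2)
          = (1 - PowerSeries.X) ^ (e + 2) * ((1 - PowerSeries.X) * us (e + 2 + 1)) := by ring
        _ = PowerSeries.X * ((1 - PowerSeries.X) ^ (e + 2) * us (e + 2)) +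
            PowerSeries.X * (1 - PowerSeries.X) * ((1 - PowerSeries.X) ^ (e + 1) * cs (e + 2)) := by
            rw [h5]; ring
        _ = _ := by
            rw [h1, h2, ← coe_one_sub, hX, ← Polynomial.coe_mul, ← Polynomial.coe_mul,
              ← Polynomial.coe_mul, ← Polynomial.coe_add]
            congr 1
            push_cast
            simp only [map_sub, map_add, map_one, map_natCast]
            ring
    · have h5 := cs_rec (e + 1)
      rw [if_neg (by omega), zero_add] at h5
      calc (1 - PowerSeries.X) ^ (e + 1 + 1) * cs (e + 1 + 2)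
          = 2 * PowerSeries.X * ((1 - PowerSeries.X) ^ (e + 2) * us (e + 2)) +
            PowerSeries.X * (1 - PowerSeries.X) ^ 2 * ((1 - PowerSeries.X) ^ e * cs (e + 1)) := by
            rw [h5]; ring
        _ = _ := by
            have h22 : (2 : PowerSeries ℚ) = ((2 : ℚ[X]) : PowerSeries ℚ) := by
              rw [← one_add_one_eq_two, ← one_add_one_eq_two, Polynomial.coe_add,
                Polynomial.coe_one]
            rw [h1, h3, ← coe_one_sub, hX, h22]
            simp only [← Polynomial.coe_mul, ← Polynomial.coe_pow, ← Polynomial.coe_add]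
            congr 1
            simp only [map_sub, map_mul, map_one, map_natCast, map_ofNat]
            ring
    · intro _
      push_cast; ring

theorem F_eq (d : ℕ) (hd : 3 ≤ d) : F d 2 = 2 * PowerSeries.X * cs d := by
  have h2 : (2 : PowerSeries ℚ) = PowerSeries.C 2 := (map_ofNat _ 2).symm
  ext n
  rw [h2, mul_assoc, PowerSeries.coeff_C_mul, F, PowerSeries.coeff_mk]
  rcases n with _ | _ | n
  · simp
  · rw [PowerSeries.coeff_succ_X_mul]
    simp only [cs, PowerSeries.coeff_mk, UC, Polynomial.coeff_X_pow]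
    rw [if_neg (by omega), if_neg (by omega), mul_zero]
  · rw [PowerSeries.coeff_succ_X_mul, if_pos (by omega), E_eq]
    simp only [cs, PowerSeries.coeff_mk]

theorem expansion_two (d : ℕ) (hd : 4 ≤ d) : Expansion d (F d 2) 4 (4 * ((d : ℚ) - 6)) := by
  obtain ⟨e, rfl⟩ : ∃ e, d = e + 2 := ⟨d - 2, by omega⟩
  obtain ⟨R, S, T, b, _, h2, _, h4⟩ := main_ind e
  have hb := h4 (by omega)
  subst hb
  refine ⟨-2 * C (2 * (e : ℚ) - 6) + 2 * X * S, ?_⟩
  have hX : (PowerSeries.X : PowerSeries ℚ) = ((X : ℚ[X]) : PowerSeries ℚ) :=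
      Polynomial.coe_X.symm
  have h22 : (2 : PowerSeries ℚ) = ((2 : ℚ[X]) : PowerSeries ℚ) := by
    rw [← one_add_one_eq_two, ← one_add_one_eq_two, Polynomial.coe_add, Polynomial.coe_one]
  rw [F_eq _ (by omega)]
  calc (1 - PowerSeries.X) ^ (e + 2 - 1) * (2 * PowerSeries.X * cs (e + 2))
      = 2 * PowerSeries.X * ((1 - PowerSeries.X) ^ (e + 1) * cs (e + 2)) := by
        rw [show e + 2 - 1 = e + 1 by omega]; ring
    _ = _ := by
        rw [h2, hX, h22]
        simp only [← Polynomial.coe_mul]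
        congr 1
        simp only [map_sub, map_mul, map_natCast, map_ofNat, Nat.cast_add, Nat.cast_ofNat, map_add]
        ring

theorem expansion_unique (d : ℕ) (f : PowerSeries ℚ) (a₁ a₂ b₁ b₂ : ℚ)
    (ha : Expansion d f a₁ a₂) (hb : Expansion d f b₁ b₂) : a₁ = b₁ ∧ a₂ = b₂ := by
  obtain ⟨R, hR⟩ := ha
  obtain ⟨S, hS⟩ := hb
  rw [hR] at hS
  have h := Polynomial.coe_injective ℚ hS
  have h1 := congrArg (Polynomial.eval 1) h
  have h2 := congrArg (fun P => Polynomial.eval 1 (Polynomial.derivative P)) h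
  constructor
  · simpa using h1
  · simp only [Polynomial.derivative_add, Polynomial.derivative_mul, Polynomial.derivative_C,
      Polynomial.derivative_sub, Polynomial.derivative_one, Polynomial.derivative_X, pow_two,
      Polynomial.eval_add, Polynomial.eval_mul, Polynomial.eval_sub, Polynomial.eval_C,
      Polynomial.eval_one, Polynomial.eval_X, Polynomial.eval_zero] at h2
    linarith

/-- For the grids with two rows the first two coefficients of the expansion of `F_{d,2}` at `z = 1`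
are `4` and `4 (d - 6)`.  So the identity `c₂(m) = -4 (d - 4)` fails for `m = 2` and all `d ≥ 6`. -/
theorem result :
    (∀ d : ℕ, 4 ≤ d → ∀ c₁ c₂ : ℚ,
      Expansion d (F d 2) c₁ c₂ ↔ c₁ = 4 ∧ c₂ = 4 * ((d : ℚ) - 6)) ∧
    (∀ d : ℕ, 6 ≤ d → ∃ c₁ c₂ : ℚ, Expansion d (F d 2) c₁ c₂ ∧ c₂ ≠ -4 * ((d : ℚ) - 4)) := by
  refine ⟨fun d hd c₁ c₂ => ⟨fun h => ?_, ?_⟩, fun d hd => ?_⟩
  · exact expansion_unique _ _ _ _ _ _ h (expansion_two d hd)
  · rintro ⟨rfl, rfl⟩
    exact expansion_two d hd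
  · refine ⟨4, 4 * ((d : ℚ) - 6), expansion_two d (by omega), fun h => ?_⟩
    have h6 : (6 : ℚ) ≤ d := by exact_mod_cast hd
    linarith

end Pool.Agent.Results.MP_562107_co.TwoRows
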