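import Mathlib

open Finset

namespace Pool.Agent.Results.MP_562107_co.WidthTwo

noncomputable section

/-- The cells of the grid graph `G_{m,n}` (indexed from `0` instead of `1`). -/
abbrev Cell (m n : ℕ) := Fin m × Fin n

/-- Two cells are adjacent when they differ by `1` in exactly one coordinate. -/
def Adj {m n : ℕ} (u v : Cell m n) : Prop :=
  (u.1 = v.1 ∧ (u.2.val + 1 = v.2.val ∨ v.2.val + 1 = u.2.val)) ∨
  (u.2 = v.2 ∧ (u.1.val + 1 = v.1.val ∨ v.1.val + 1 = u.1.val))

/-- Height functions, normalised to be `0` in the corner cell `(1,1)` (here `(0,0)`). -/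
def IsHeight {m n : ℕ} (h : Cell m n → ℤ) : Prop :=
  (∀ u v, Adj u v → |h u - h v| = 1) ∧ ∀ u : Cell m n, u.1.val = 0 → u.2.val = 0 → h u = 0

/-- Strict local minima: every neighbour `u` of `v` has `h u = h v + 1`. -/
def IsMin {m n : ℕ} (h : Cell m n → ℤ) (v : Cell m n) : Prop :=
  ∀ u, Adj v u → h u = h v + 1

/-- Strict local maxima: every neighbour `u` of `v` has `h u = h v - 1`. -/
def IsMax {m n : ℕ} (h : Cell m n → ℤ) (v : Cell m n) : Prop :=
  ∀ u, Adj v u → h u = h v - 1

/-- The number of extrema of `h`. -/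
def numExt {m n : ℕ} (h : Cell m n → ℤ) : ℕ :=
  Nat.card {v : Cell m n // IsMin h v ∨ IsMax h v}

/-- `E_d(m,n)`: the number of height functions on `G_{m,n}` with exactly `d` extrema. -/
def E (d m n : ℕ) : ℕ :=
  Nat.card {h : Cell m n → ℤ // IsHeight h ∧ numExt h = d}

/-- The power series `F_{d,m}(z) = ∑_{n ≥ 2} E_d(m,n) z^n`. -/
def F (d m : ℕ) : PowerSeries ℚ :=
  PowerSeries.mk fun n => if 2 ≤ n then (E d m n : ℚ) else 0

/-- `c` is the coefficient `c_2(m)` of `(1-z)^{-(d-2)}` in the expansion of `F_{d,m}` at `z = 1`: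
`F_{d,m}(z) = P(z) / (1-z)^{d-1}` for a polynomial `P` (i.e. `F_{d,m}` is a rational function
whose only pole is at `z = 1`, of order at most `d-1`) and `c` is the coefficient of `(1-z)^1`
in the expansion of `P` in powers of `1-z`. -/
def IsC2 (d m : ℕ) (c : ℚ) : Prop :=
  ∃ P : Polynomial ℚ, F d m * (1 - PowerSeries.X) ^ (d - 1) = (P : PowerSeries ℚ) ∧
    c = (P.comp (1 - Polynomial.X)).coeff 1

/-! ### Words -/

inductive Step | U | D | S
  deriving DecidableEq

open Step

instance : Fintype Step := ⟨{U, D, S}, by intro x; cases x <;> simp⟩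

def stp : Step → ℤ × ℤ → ℤ × ℤ
  | U, c => (c.1 + 1, c.2 + 1)
  | D, c => (c.1 - 1, c.2 - 1)
  | S, c => (c.2, c.1)

def wt : Step → Step → ℕ
  | U, U => 0
  | D, D => 0
  | S, S => 2
  | _, _ => 1

/-- total weight of the word `x w S` -/
def T {N : ℕ} (x : Step) (w : Fin N → Step) : ℕ :=
  ∑ j : Fin (N + 1), wt ((Fin.cons x w : Fin (N + 1) → Step) j) ((Fin.snoc w S : Fin (N + 1) → Step) j)

lemma T_zero (x : Step) (w : Fin 0 → Step) : T x w = wt x S := by
  unfold T
  simp [Fin.snoc]

lemma T_cons {N : ℕ} (x y : Step) (w : Fin N → Step) :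
    T x (Fin.cons y w : Fin (N + 1) → Step) = wt x y + T y w := by
  unfold T
  rw [Fin.sum_univ_succ, ← Fin.cons_snoc_eq_snoc_cons]
  simp

def W (x : Step) (N d : ℕ) : ℕ := Nat.card {w : Fin N → Step // T x w = d}

lemma W_eq (x : Step) (N d : ℕ) : W x N d = ∑ w : Fin N → Step, if T x w = d then 1 else 0 := by
  unfold W
  rw [Nat.card_eq_fintype_card, Fintype.card_subtype, Finset.card_filter]

lemma W_succ (x : Step) (N d : ℕ) :
    W x (N + 1) d = ∑ y : Step, ∑ w : Fin N → Step, if wt x y + T y w = d then 1 else 0 := by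
  rw [W_eq]
  rw [← Fintype.sum_prod_type']
  rw [← (Fin.consEquiv (fun _ : Fin (N + 1) => Step)).sum_comp]
  apply Finset.sum_congr rfl
  rintro ⟨y, w⟩ _
  change (if T x (Fin.cons y w : Fin (N + 1) → Step) = d then 1 else 0) = _
  rw [T_cons]

lemma sum_step (f : Step → ℕ) : ∑ y : Step, f y = f U + f D + f S := by
  have : (Finset.univ : Finset Step) = {U, D, S} := by decide
  rw [this]
  rw [Finset.sum_insert (by decide), Finset.sum_insert (by decide), Finset.sum_singleton]
  ring

lemma shift (x y : Step) (k N d e : ℕ) (h : wt x y = k) (he : e = d + k) :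
    (∑ w : Fin N → Step, if wt x y + T y w = e then 1 else 0) = W y N d := by
  rw [W_eq]
  apply Finset.sum_congr rfl
  intro w _
  congr 1
  apply propext
  omega

lemma W_S_succ (N d : ℕ) : W S (N + 1) (d + 2) = W U N (d + 1) + W D N (d + 1) + W S N d := by
  rw [W_succ, sum_step, shift S U 1 N (d + 1) _ rfl rfl, shift S D 1 N (d + 1) _ rfl rfl,
    shift S S 2 N d _ rfl rfl]

lemma W_U_succ (N d : ℕ) : W U (N + 1) (d + 1) = W U N (d + 1) + W D N d + W S N d := by
  rw [W_succ, sum_step, shift U U 0 N (d + 1) _ rfl rfl, shift U D 1 N d _ rfl rfl,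
    shift U S 1 N d _ rfl rfl]

lemma W_D_succ (N d : ℕ) : W D (N + 1) (d + 1) = W U N d + W D N (d + 1) + W S N d := by
  rw [W_succ, sum_step, shift D U 1 N d _ rfl rfl, shift D D 0 N (d + 1) _ rfl rfl,
    shift D S 1 N d _ rfl rfl]

lemma T_pos {N : ℕ} (x : Step) (w : Fin N → Step) : 1 ≤ T x w := by
  induction N generalizing x with
  | zero => rw [T_zero]; cases x <;> simp [wt]
  | succ N ih =>
    rw [← Fin.cons_self_tail w, T_cons]
    have := ih (w 0) (Fin.tail w)
    omega

lemma T_S {N : ℕ} (w : Fin N → Step) : 2 ≤ T S w := by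
  induction N with
  | zero => rw [T_zero]; simp [wt]
  | succ N ih =>
    rw [← Fin.cons_self_tail w, T_cons]
    have := T_pos (w 0) (Fin.tail w)
    have h2 : 1 ≤ wt S (w 0) := by cases (w 0) <;> simp [wt]
    omega

lemma W_zero_d (x : Step) (N : ℕ) : W x N 0 = 0 := by
  rw [W_eq]
  apply Finset.sum_eq_zero
  intro w _
  have := T_pos x w
  rw [if_neg (by omega)]

lemma W_S_one (N : ℕ) : W S N 1 = 0 := by
  rw [W_eq]
  apply Finset.sum_eq_zero
  intro w _
  have := T_S w
  rw [if_neg (by omega)]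

lemma W_zero_N (x : Step) (d : ℕ) : W x 0 d = if wt x S = d then 1 else 0 := by
  rw [W_eq]
  simp [T_zero]

lemma W_D_eq_U (N d : ℕ) : W D N d = W U N d := by
  induction N generalizing d with
  | zero => rw [W_zero_N, W_zero_N]; rfl
  | succ N ih =>
    cases d with
    | zero => rw [W_zero_d, W_zero_d]
    | succ d => rw [W_D_succ, W_U_succ, ih, ih]; ring

/-! ### Columns -/

def col {N : ℕ} (s : Bool) (w : Fin N → Step) : Fin (N + 1) → ℤ × ℤ :=
  Fin.induction ((0 : ℤ), if s then (1 : ℤ) else -1) (fun j c => stp (w j) c)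

lemma col_zero {N : ℕ} (s : Bool) (w : Fin N → Step) : col s w 0 = (0, if s then 1 else -1) := by
  simp [col]

lemma col_succ {N : ℕ} (s : Bool) (w : Fin N → Step) (j : Fin N) :
    col s w j.succ = stp (w j) (col s w j.castSucc) := by
  simp [col]

def Good (c : ℤ × ℤ) : Prop := |c.1 - c.2| = 1

lemma good_iff (c : ℤ × ℤ) : Good c ↔ (c.2 = c.1 + 1 ∨ c.2 = c.1 - 1) := by
  unfold Good
  rw [abs_eq (by norm_num)]
  constructor
  · rintro (h | h)
    · right; omega
    · left; omega
  · rintro (h | h)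
    · right; omega
    · left; omega

lemma good_stp (x : Step) (c : ℤ × ℤ) (h : Good c) : Good (stp x c) := by
  rw [good_iff] at *
  cases x <;> simp only [stp] <;> omega

lemma col_good {N : ℕ} (s : Bool) (w : Fin N → Step) (j : Fin (N + 1)) : Good (col s w j) := by
  induction j using Fin.induction with
  | zero => rw [col_zero, good_iff]; cases s <;> simp
  | succ j ih => rw [col_succ]; exact good_stp _ _ ih

def hgt {N : ℕ} (c : Fin (N + 1) → ℤ × ℤ) : Cell 2 (N + 1) → ℤ :=
  fun v => if v.1 = 0 then (c v.2).1 else (c v.2).2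

lemma hgt_zero {N : ℕ} (c : Fin (N + 1) → ℤ × ℤ) (j : Fin (N + 1)) : hgt c (0, j) = (c j).1 := by
  simp [hgt]

lemma hgt_one {N : ℕ} (c : Fin (N + 1) → ℤ × ℤ) (j : Fin (N + 1)) : hgt c (1, j) = (c j).2 := by
  simp [hgt]

lemma classify (c c' : ℤ × ℤ) (h : Good c) (h' : Good c') (h1 : |c.1 - c'.1| = 1)
    (h2 : |c.2 - c'.2| = 1) : ∃ x, c' = stp x c := by
  rw [good_iff] at h h'
  rw [abs_eq (by norm_num)] at h1 h2
  obtain ⟨a, b⟩ := c
  obtain ⟨a', b'⟩ := c'
  simp only at *
  by_cases e : a' = a + 1 ∧ b' = b + 1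
  · exact ⟨U, by simp [stp, e]⟩
  · by_cases e2 : a' = a - 1 ∧ b' = b - 1
    · exact ⟨D, by simp [stp, e2]⟩
    · refine ⟨S, ?_⟩
      simp only [stp, Prod.mk.injEq]
      omega

lemma stp_inj (c : ℤ × ℤ) (h : Good c) (x y : Step) (e : stp x c = stp y c) : x = y := by
  rw [good_iff] at h
  obtain ⟨a, b⟩ := c
  cases x <;> cases y <;> simp only [stp, Prod.mk.injEq] at e h <;> first | rfl | omega

lemma stp_adj (c : ℤ × ℤ) (h : Good c) (x : Step) :
    |c.1 - (stp x c).1| = 1 ∧ |c.2 - (stp x c).2| = 1 := by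
  rw [good_iff] at h
  rw [abs_eq (by norm_num), abs_eq (by norm_num)]
  obtain ⟨a, b⟩ := c
  cases x <;> simp only [stp] at * <;> omega

lemma isHeight_hgt {N : ℕ} (s : Bool) (w : Fin N → Step) : IsHeight (hgt (col s w)) := by
  constructor
  · have key : ∀ (j : Fin N) (i : Fin 2),
        |hgt (col s w) (i, j.castSucc) - hgt (col s w) (i, j.succ)| = 1 := by
      intro j i
      have := stp_adj _ (col_good s w j.castSucc) (w j)
      fin_cases i
      · simpa [hgt, col_succ] using this.1
      · simpa [hgt, col_succ] using this.2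
    have key2 : ∀ (i : Fin 2) (j j' : Fin (N + 1)), j.val + 1 = j'.val →
        |hgt (col s w) (i, j) - hgt (col s w) (i, j')| = 1 := by
      intro i j j' h
      have hj : j.val < N := by have := j'.isLt; omega
      have e1 : j = (⟨j.val, hj⟩ : Fin N).castSucc := by ext; simp
      have e2 : j' = (⟨j.val, hj⟩ : Fin N).succ := by ext; simp [h]
      rw [e1, e2]
      exact key _ _
    rintro ⟨i, j⟩ ⟨i', j'⟩ (⟨h, h' | h'⟩ | ⟨h, h' | h'⟩)
    · simp only at h h'
      subst h
      exact key2 i j j' h'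
    · simp only at h h'
      subst h
      rw [abs_sub_comm]
      exact key2 i j' j h'
    · simp only at h h'
      subst h
      have e1 : i = 0 := by ext; have := i'.isLt; simp; omega
      have e2 : i' = 1 := by ext; have := i'.isLt; simp; omega
      subst e1 e2
      rw [hgt_zero, hgt_one]
      exact col_good s w j
    · simp only at h h'
      subst h
      have e1 : i' = 0 := by ext; have := i.isLt; simp; omega
      have e2 : i = 1 := by ext; have := i.isLt; simp; omega
      subst e1 e2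
      rw [hgt_zero, hgt_one, abs_sub_comm]
      exact col_good s w j
  · rintro ⟨i, j⟩ hi hj
    simp only at hi hj
    have e1 : i = 0 := by ext; simpa using hi
    have e2 : j = 0 := by ext; simpa using hj
    subst e1 e2
    rw [hgt_zero, col_zero]

/-- The height functions on `2 × (N+1)` are parametrised by a sign and a word. -/
def param (N : ℕ) : Bool × (Fin N → Step) → {h : Cell 2 (N + 1) → ℤ // IsHeight h} :=
  fun p => ⟨hgt (col p.1 p.2), isHeight_hgt p.1 p.2⟩

lemma hgt_inj {N : ℕ} (c c' : Fin (N + 1) → ℤ × ℤ) (h : hgt c = hgt c') : c = c' := by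
  ext j
  · have := congrFun h (0, j)
    rwa [hgt_zero, hgt_zero] at this
  · have := congrFun h (1, j)
    rwa [hgt_one, hgt_one] at this

lemma param_bij (N : ℕ) : Function.Bijective (param N) := by
  constructor
  · rintro ⟨s, w⟩ ⟨s', w'⟩ h
    have h1 : col s w = col s' w' := hgt_inj _ _ (congrArg Subtype.val h)
    have hs : s = s' := by
      have := congrFun h1 0
      rw [col_zero, col_zero] at this
      cases s <;> cases s' <;> simp at this ⊢
    have hw : w = w' := by
      funext j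
      have e1 := congrFun h1 j.succ
      rw [col_succ, col_succ, ← h1] at e1
      exact stp_inj _ (col_good s w _) _ _ e1
    rw [hs, hw]
  · rintro ⟨h, hh⟩
    set c : Fin (N + 1) → ℤ × ℤ := fun j => (h (0, j), h (1, j)) with hc
    have hg : ∀ j, Good (c j) := by
      intro j
      apply hh.1
      right
      exact ⟨rfl, Or.inl rfl⟩
    have hst : ∀ j : Fin N, ∃ x, c j.succ = stp x (c j.castSucc) := by
      intro j
      apply classify _ _ (hg _) (hg _)
      · apply hh.1
        left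
        exact ⟨rfl, Or.inl (by simp)⟩
      · apply hh.1
        left
        exact ⟨rfl, Or.inl (by simp)⟩
    choose w hw using hst
    have h0 : ∃ s : Bool, c 0 = (0, if s then 1 else -1) := by
      have e1 : h (0, 0) = 0 := hh.2 _ rfl rfl
      have e2 := (good_iff _).1 (hg 0)
      rcases e2 with e2 | e2
      · refine ⟨true, ?_⟩
        simp only [hc] at e2 ⊢
        rw [e1] at e2 ⊢
        simp [e2]
      · refine ⟨false, ?_⟩
        simp only [hc] at e2 ⊢
        rw [e1] at e2 ⊢
        simp [e2]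
    obtain ⟨s, hs⟩ := h0
    have hcol : ∀ j, col s w j = c j := by
      intro j
      induction j using Fin.induction with
      | zero => rw [col_zero, hs]
      | succ j ih => rw [col_succ, hw, ih]
    refine ⟨(s, w), ?_⟩
    apply Subtype.ext
    funext ⟨i, j⟩
    change hgt (col s w) (i, j) = h (i, j)
    have hcol' : col s w = c := funext hcol
    rw [hcol']
    fin_cases i
    · exact hgt_zero c j
    · exact hgt_one c j

/-! ### Counting the extrema -/

def unstp : Step → ℤ × ℤ → ℤ × ℤ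
  | U, c => (c.1 - 1, c.2 - 1)
  | D, c => (c.1 + 1, c.2 + 1)
  | S, c => (c.2, c.1)

lemma unstp_stp (x : Step) (c : ℤ × ℤ) : unstp x (stp x c) = c := by
  obtain ⟨a, b⟩ := c
  cases x <;> simp [stp, unstp]

def lft {N : ℕ} (w : Fin N → Step) (j : Fin (N + 1)) : Step :=
  (Fin.cons S w : Fin (N + 1) → Step) j

def rgt {N : ℕ} (w : Fin N → Step) (j : Fin (N + 1)) : Step :=
  (Fin.snoc w S : Fin (N + 1) → Step) j

def prevc {N : ℕ} (s : Bool) (w : Fin N → Step) (j : Fin (N + 1)) : ℤ × ℤ :=
  unstp (lft w j) (col s w j)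

def nextc {N : ℕ} (s : Bool) (w : Fin N → Step) (j : Fin (N + 1)) : ℤ × ℤ :=
  stp (rgt w j) (col s w j)

lemma prevc_zero {N : ℕ} (s : Bool) (w : Fin N → Step) (j : Fin (N + 1)) (hj : j.val = 0) :
    prevc s w j = ((col s w j).2, (col s w j).1) := by
  have e : j = 0 := by ext; simpa using hj
  subst e
  simp [prevc, lft, unstp]

lemma prevc_of {N : ℕ} (s : Bool) (w : Fin N → Step) (j j' : Fin (N + 1))
    (hj : j'.val + 1 = j.val) : prevc s w j = col s w j' := by
  have hj2 : j'.val < N := by have := j.isLt; omega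
  have e1 : j' = (⟨j'.val, hj2⟩ : Fin N).castSucc := by ext; simp
  have e2 : j = (⟨j'.val, hj2⟩ : Fin N).succ := by ext; simp [hj]
  rw [e1, e2]
  generalize (⟨j'.val, hj2⟩ : Fin N) = k
  unfold prevc lft
  rw [Fin.cons_succ, col_succ, unstp_stp]

lemma nextc_last {N : ℕ} (s : Bool) (w : Fin N → Step) (j : Fin (N + 1)) (hj : j.val = N) :
    nextc s w j = ((col s w j).2, (col s w j).1) := by
  have e : j = Fin.last N := by ext; simpa using hj
  subst e
  simp [nextc, rgt, stp]

lemma nextc_of {N : ℕ} (s : Bool) (w : Fin N → Step) (j j' : Fin (N + 1))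
    (hj : j.val + 1 = j'.val) : nextc s w j = col s w j' := by
  have hj2 : j.val < N := by have := j'.isLt; omega
  have e1 : j = (⟨j.val, hj2⟩ : Fin N).castSucc := by ext; simp
  have e2 : j' = (⟨j.val, hj2⟩ : Fin N).succ := by ext; simp [hj]
  rw [e1, e2]
  generalize (⟨j.val, hj2⟩ : Fin N) = k
  unfold nextc rgt
  rw [Fin.snoc_castSucc, col_succ]

lemma ext_zero {N : ℕ} (s : Bool) (w : Fin N → Step) (j : Fin (N + 1)) (e : ℤ) :
    (∀ u, Adj (0, j) u → hgt (col s w) u = hgt (col s w) (0, j) + e) ↔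
      (col s w j).2 = (col s w j).1 + e ∧ (prevc s w j).1 = (col s w j).1 + e ∧
        (nextc s w j).1 = (col s w j).1 + e := by
  constructor
  · intro h
    have h1 : (col s w j).2 = (col s w j).1 + e := by
      have := h (1, j) (Or.inr ⟨rfl, Or.inl rfl⟩)
      rwa [hgt_one, hgt_zero] at this
    refine ⟨h1, ?_, ?_⟩
    · by_cases hj : j.val = 0
      · rw [prevc_zero s w j hj]; exact h1
      · have hlt : j.val - 1 < N + 1 := by have := j.isLt; omega
        have hv : (⟨j.val - 1, hlt⟩ : Fin (N + 1)).val + 1 = j.val := by simp; omega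
        rw [prevc_of s w j ⟨j.val - 1, hlt⟩ hv]
        have := h (0, ⟨j.val - 1, hlt⟩) (Or.inl ⟨rfl, Or.inr hv⟩)
        rwa [hgt_zero, hgt_zero] at this
    · by_cases hj : j.val = N
      · rw [nextc_last s w j hj]; exact h1
      · have hlt : j.val + 1 < N + 1 := by have := j.isLt; omega
        have hv : j.val + 1 = (⟨j.val + 1, hlt⟩ : Fin (N + 1)).val := by simp
        rw [nextc_of s w j ⟨j.val + 1, hlt⟩ hv]
        have := h (0, ⟨j.val + 1, hlt⟩) (Or.inl ⟨rfl, Or.inl hv⟩)
        rwa [hgt_zero, hgt_zero] at this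
  · rintro ⟨h1, h2, h3⟩ ⟨i', j'⟩ (⟨h, h' | h'⟩ | ⟨h, h' | h'⟩)
    · simp only at h h'
      subst h
      rw [hgt_zero, hgt_zero, ← nextc_of s w j j' h']
      exact h3
    · simp only at h h'
      subst h
      rw [hgt_zero, hgt_zero, ← prevc_of s w j j' h']
      exact h2
    · simp only at h h'
      subst h
      have e2 : i' = 1 := by ext; have := i'.isLt; simp at h' ⊢; omega
      subst e2
      rw [hgt_zero, hgt_one]
      exact h1
    · simp only at h h'
      simp at h'

lemma ext_one {N : ℕ} (s : Bool) (w : Fin N → Step) (j : Fin (N + 1)) (e : ℤ) :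
    (∀ u, Adj (1, j) u → hgt (col s w) u = hgt (col s w) (1, j) + e) ↔
      (col s w j).1 = (col s w j).2 + e ∧ (prevc s w j).2 = (col s w j).2 + e ∧
        (nextc s w j).2 = (col s w j).2 + e := by
  constructor
  · intro h
    have h1 : (col s w j).1 = (col s w j).2 + e := by
      have := h (0, j) (Or.inr ⟨rfl, Or.inr rfl⟩)
      rwa [hgt_one, hgt_zero] at this
    refine ⟨h1, ?_, ?_⟩
    · by_cases hj : j.val = 0
      · rw [prevc_zero s w j hj]; exact h1
      · have hlt : j.val - 1 < N + 1 := by have := j.isLt; omega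
        have hv : (⟨j.val - 1, hlt⟩ : Fin (N + 1)).val + 1 = j.val := by simp; omega
        rw [prevc_of s w j ⟨j.val - 1, hlt⟩ hv]
        have := h (1, ⟨j.val - 1, hlt⟩) (Or.inl ⟨rfl, Or.inr hv⟩)
        rwa [hgt_one, hgt_one] at this
    · by_cases hj : j.val = N
      · rw [nextc_last s w j hj]; exact h1
      · have hlt : j.val + 1 < N + 1 := by have := j.isLt; omega
        have hv : j.val + 1 = (⟨j.val + 1, hlt⟩ : Fin (N + 1)).val := by simp
        rw [nextc_of s w j ⟨j.val + 1, hlt⟩ hv]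
        have := h (1, ⟨j.val + 1, hlt⟩) (Or.inl ⟨rfl, Or.inl hv⟩)
        rwa [hgt_one, hgt_one] at this
  · rintro ⟨h1, h2, h3⟩ ⟨i', j'⟩ (⟨h, h' | h'⟩ | ⟨h, h' | h'⟩)
    · simp only at h h'
      subst h
      rw [hgt_one, hgt_one, ← nextc_of s w j j' h']
      exact h3
    · simp only at h h'
      subst h
      rw [hgt_one, hgt_one, ← prevc_of s w j j' h']
      exact h2
    · simp only at h h'
      have := i'.isLt
      simp at h'
      omega
    · simp only at h h'
      subst h
      have e2 : i' = 0 := by ext; simp at h' ⊢; omega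
      subst e2
      rw [hgt_zero, hgt_one]
      exact h1

lemma local_count (x y : Step) (c : ℤ × ℤ) (hc : Good c) (P Q : Prop) [Decidable P] [Decidable Q]
    (hP : P ↔ ((c.2 = c.1 + 1 ∧ (unstp x c).1 = c.1 + 1 ∧ (stp y c).1 = c.1 + 1) ∨
        (c.2 = c.1 + (-1) ∧ (unstp x c).1 = c.1 + (-1) ∧ (stp y c).1 = c.1 + (-1))))
    (hQ : Q ↔ ((c.1 = c.2 + 1 ∧ (unstp x c).2 = c.2 + 1 ∧ (stp y c).2 = c.2 + 1) ∨
        (c.1 = c.2 + (-1) ∧ (unstp x c).2 = c.2 + (-1) ∧ (stp y c).2 = c.2 + (-1)))) :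
    (if P then 1 else 0) + (if Q then 1 else 0) = wt x y := by
  rw [good_iff] at hc
  obtain ⟨a, b⟩ := c
  split_ifs with h1 h2 h2 <;> rw [hP] at h1 <;> rw [hQ] at h2 <;> clear hP hQ <;>
    cases x <;> cases y <;> simp only [stp, unstp, wt] at * <;>
    first | omega | (simp only [true_and, and_true] at h1 h2; omega)

lemma numExt_hgt {N : ℕ} (s : Bool) (w : Fin N → Step) : numExt (hgt (col s w)) = T S w := by
  classical
  unfold numExt
  rw [Nat.card_eq_fintype_card, Fintype.card_subtype, Finset.card_filter,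
    Fintype.sum_prod_type_right]
  unfold T
  apply Finset.sum_congr rfl
  intro j _
  rw [Fin.sum_univ_two]
  have h0 := ext_zero s w j
  have h1 := ext_one s w j
  apply local_count (lft w j) (rgt w j) (col s w j) (col_good s w j)
  · exact or_congr (h0 1) (by unfold IsMax; simp only [sub_eq_add_neg]; exact h0 (-1))
  · exact or_congr (h1 1) (by unfold IsMax; simp only [sub_eq_add_neg]; exact h1 (-1))

lemma E_eq (d N : ℕ) : E d 2 (N + 1) = 2 * W S N d := by
  unfold E W
  have e : {h : Cell 2 (N + 1) → ℤ // IsHeight h ∧ numExt h = d} ≃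
      Bool × {w : Fin N → Step // T S w = d} := by
    symm
    refine Equiv.ofBijective (fun p => ⟨hgt (col p.1 p.2.1), isHeight_hgt _ _, ?_⟩) ⟨?_, ?_⟩
    · rw [numExt_hgt]; exact p.2.2
    · rintro ⟨s, w, hw⟩ ⟨s', w', hw'⟩ h
      have h' : hgt (col s w) = hgt (col s' w') := congrArg Subtype.val h
      have := (param_bij N).1 (a₁ := (s, w)) (a₂ := (s', w')) (Subtype.ext h')
      simp only [Prod.mk.injEq] at this
      obtain ⟨rfl, rfl⟩ := this
      rfl
    · rintro ⟨h, hh, hd⟩
      obtain ⟨⟨s, w⟩, hp⟩ := (param_bij N).2 ⟨h, hh⟩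
      have hp' : hgt (col s w) = h := congrArg Subtype.val hp
      refine ⟨⟨s, w, ?_⟩, ?_⟩
      · rw [← numExt_hgt s w, hp']; exact hd
      · exact Subtype.ext hp'
  rw [Nat.card_congr e, Nat.card_prod]
  simp

/-! ### Power series -/

lemma coe_two : ((2 : Polynomial ℚ) : PowerSeries ℚ) = 2 := by
  rw [← one_add_one_eq_two, Polynomial.coe_add, Polynomial.coe_one, one_add_one_eq_two]

def A (d : ℕ) : PowerSeries ℚ := PowerSeries.mk fun N => (W S N d : ℚ)

def B (d : ℕ) : PowerSeries ℚ := PowerSeries.mk fun N => (W U N d : ℚ)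

lemma A_zero : A 0 = 0 := by
  ext N
  simp [A, W_zero_d]

lemma A_one : A 1 = 0 := by
  ext N
  simp [A, W_S_one]

lemma B_zero : B 0 = 0 := by
  ext N
  simp [B, W_zero_d]

lemma A_two : A 2 = 1 + PowerSeries.X * (2 * B 1) := by
  ext N
  cases N with
  | zero =>
    simp [A, W_zero_N, wt]
  | succ N =>
    rw [map_add, PowerSeries.coeff_succ_X_mul, PowerSeries.coeff_one, if_neg (by omega)]
    have e : (2 : PowerSeries ℚ) * B 1 = B 1 + B 1 := by ring
    rw [e, map_add]
    simp only [A, B, PowerSeries.coeff_mk]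
    rw [W_S_succ, W_D_eq_U, W_zero_d]
    push_cast
    ring

lemma A_rec (d : ℕ) : A (d + 3) = PowerSeries.X * (A (d + 1) + 2 * B (d + 2)) := by
  ext N
  cases N with
  | zero =>
    simp [A, W_zero_N, wt]
  | succ N =>
    rw [PowerSeries.coeff_succ_X_mul]
    have e : (2 : PowerSeries ℚ) * B (d + 2) = B (d + 2) + B (d + 2) := by ring
    rw [e, map_add, map_add]
    simp only [A, B, PowerSeries.coeff_mk]
    rw [W_S_succ, W_D_eq_U]
    push_cast
    ring

lemma B_one : B 1 = 1 + PowerSeries.X * B 1 := by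
  ext N
  cases N with
  | zero =>
    simp [B, W_zero_N, wt]
  | succ N =>
    rw [map_add, PowerSeries.coeff_succ_X_mul, PowerSeries.coeff_one, if_neg (by omega)]
    simp only [B, PowerSeries.coeff_mk]
    rw [W_U_succ, W_zero_d, W_zero_d]
    push_cast
    ring

lemma B_rec (d : ℕ) :
    B (d + 2) = PowerSeries.X * (B (d + 2) + B (d + 1) + A (d + 1)) := by
  ext N
  cases N with
  | zero =>
    simp [B, W_zero_N, wt]
  | succ N =>
    rw [PowerSeries.coeff_succ_X_mul, map_add, map_add]
    simp only [A, B, PowerSeries.coeff_mk]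
    rw [W_U_succ, W_D_eq_U]
    push_cast
    ring

lemma polys (k : ℕ) : ∃ P P' Q : Polynomial ℚ,
    (1 - PowerSeries.X) ^ (k + 1) * A (k + 2) = (P : PowerSeries ℚ) ∧
    (1 - PowerSeries.X) ^ (k + 2) * A (k + 3) = (P' : PowerSeries ℚ) ∧
    (1 - PowerSeries.X) ^ (k + 2) * B (k + 2) = (Q : PowerSeries ℚ) ∧
    P.eval 1 = 2 ∧ P'.eval 1 = 2 ∧ Q.eval 1 = 1 ∧
    Q.derivative.eval 1 = 1 - (k : ℚ) ∧ P'.derivative.eval 1 = 2 * (2 - (k : ℚ)) := by
  induction k with
  | zero =>
    refine ⟨1 + Polynomial.X, 2 * Polynomial.X ^ 2, Polynomial.X, ?_, ?_, ?_, ?_, ?_, ?_, ?_, ?_⟩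
    · have h1 := A_two
      have h2 := B_one
      simp only [Polynomial.coe_add, Polynomial.coe_one, Polynomial.coe_X]
      rw [h1]
      linear_combination (2 * PowerSeries.X) * h2
    · have h1 := A_rec 0
      have h2 := B_rec 0
      have h3 := B_one
      have h4 := A_one
      simp only [Polynomial.coe_mul, Polynomial.coe_pow, Polynomial.coe_X, coe_two,
        zero_add] at h1 h2 ⊢
      rw [h4] at h1 h2
      rw [h1]
      linear_combination (2 * PowerSeries.X * (1 - PowerSeries.X)) * h2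
        + (2 * PowerSeries.X ^ 2) * h3
    · have h2 := B_rec 0
      have h3 := B_one
      have h4 := A_one
      simp only [Polynomial.coe_X, zero_add] at h2 ⊢
      rw [h4] at h2
      linear_combination ((1 - PowerSeries.X)) * h2 + (PowerSeries.X) * h3
    · simp; norm_num
    · simp
    · simp
    · simp
    · simp; norm_num
  | succ k ih =>
    obtain ⟨P, P', Q, h1, h2, h3, h4, h5, h6, h7, h8⟩ := ih
    refine ⟨P', Polynomial.X * ((1 - Polynomial.X) ^ 2 * P +
      2 * (Polynomial.X * (Q + (1 - Polynomial.X) * P))),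
      Polynomial.X * (Q + (1 - Polynomial.X) * P), h2, ?_, ?_, h5, ?_, ?_, ?_, ?_⟩
    · have e1 := A_rec (k + 1)
      have e2 := B_rec (k + 1)
      simp only [Polynomial.coe_mul, Polynomial.coe_pow, Polynomial.coe_X, coe_two,
        Polynomial.coe_add, Polynomial.coe_sub, Polynomial.coe_one]
      rw [← h1, ← h3]
      have e1' : A (k + 1 + 3) = PowerSeries.X * (A (k + 2) + 2 * B (k + 3)) := e1
      have e2' : B (k + 3) = PowerSeries.X * (B (k + 3) + B (k + 2) + A (k + 2)) := e2
      rw [e1']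
      have : (1 - PowerSeries.X : PowerSeries ℚ) ^ (k + 1 + 2)
          = (1 - PowerSeries.X) * (1 - PowerSeries.X) ^ (k + 2) := by ring
      rw [this]
      linear_combination (2 * PowerSeries.X * (1 - PowerSeries.X : PowerSeries ℚ) ^ (k + 2)) * e2'
    · have e2 := B_rec (k + 1)
      simp only [Polynomial.coe_mul, Polynomial.coe_X,
        Polynomial.coe_add, Polynomial.coe_sub, Polynomial.coe_one]
      rw [← h1, ← h3]
      have e2' : B (k + 3) = PowerSeries.X * (B (k + 3) + B (k + 2) + A (k + 2)) := e2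
      change (1 - PowerSeries.X : PowerSeries ℚ) ^ (k + 1 + 2) * B (k + 3) = _
      have : (1 - PowerSeries.X : PowerSeries ℚ) ^ (k + 1 + 2)
          = (1 - PowerSeries.X) * (1 - PowerSeries.X) ^ (k + 2) := by ring
      rw [this]
      linear_combination ((1 - PowerSeries.X : PowerSeries ℚ) ^ (k + 2)) * e2'
    · simp [h4, h6]
    · simp [h6]
    · simp [Polynomial.derivative_mul, h4, h6, h7]
      ring
    · simp [Polynomial.derivative_mul, Polynomial.derivative_pow, h4, h6, h7]
      ring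

lemma F_eq (k : ℕ) : F (k + 3) 2 = 2 * PowerSeries.X * A (k + 3) := by
  have e : 2 * PowerSeries.X * A (k + 3) =
    PowerSeries.X * (A (k + 3) + A (k + 3)) := by ring
  rw [e]
  ext n
  cases n with
  | zero => simp [F]
  | succ N =>
    rw [PowerSeries.coeff_succ_X_mul, map_add]
    simp only [F, A, PowerSeries.coeff_mk]
    cases N with
    | zero =>
      rw [if_neg (by omega), W_zero_N, if_neg (by simp [wt])]
      simp
    | succ M =>
      rw [if_pos (by omega), E_eq]
      push_cast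
      ring

lemma coeff_comp (P : Polynomial ℚ) :
    (P.comp (1 - Polynomial.X)).coeff 1 = - P.derivative.eval 1 := by
  have h1 : (P.comp (1 - Polynomial.X)).derivative.coeff 0 =
      (P.comp (1 - Polynomial.X)).coeff 1 := by
    rw [Polynomial.coeff_derivative]
    simp
  rw [← h1, Polynomial.derivative_comp, Polynomial.coeff_zero_eq_eval_zero]
  simp

lemma isC2_two (d : ℕ) (hd : 3 ≤ d) : IsC2 d 2 (4 * ((d : ℚ) - 6)) := by
  obtain ⟨k, rfl⟩ : ∃ k, d = k + 3 := ⟨d - 3, by omega⟩
  obtain ⟨P, P', Q, h1, h2, h3, h4, h5, h6, h7, h8⟩ := polys k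
  refine ⟨2 * Polynomial.X * P', ?_, ?_⟩
  · rw [F_eq]
    simp only [Polynomial.coe_mul, Polynomial.coe_X, coe_two]
    rw [← h2]
    have : k + 3 - 1 = k + 2 := by omega
    rw [this]
    ring
  · rw [coeff_comp]
    simp [Polynomial.derivative_mul, h5, h8]
    ring

lemma isC2_unique (d m : ℕ) (c c' : ℚ) (h : IsC2 d m c) (h' : IsC2 d m c') : c = c' := by
  obtain ⟨P, h1, h2⟩ := h
  obtain ⟨P', h1', h2'⟩ := h'
  have : P = P' := by
    apply Polynomial.coe_injective ℚ
    rw [← h1, ← h1']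
  rw [h2, h2', this]

/-- For `m = 2` the coefficient `c_2(2)` exists, is unique and equals `4(d-6)` for every `d ≥ 3`.
Hence `c_2(2) ≠ -4(d-4)` for every `d ≥ 6`, and the identity `c_2(m) = -4(d-4)` for all `d ≥ 5`,
`m ≥ 2` is false. -/
theorem result :
    (∀ (d m : ℕ) (c c' : ℚ), IsC2 d m c → IsC2 d m c' → c = c') ∧
    (∀ d : ℕ, 3 ≤ d → IsC2 d 2 (4 * ((d : ℚ) - 6))) ∧
    (∀ d : ℕ, 6 ≤ d → ¬ IsC2 d 2 (-4 * ((d : ℚ) - 4))) ∧
    ¬ (∀ d m : ℕ, 5 ≤ d → 2 ≤ m → IsC2 d m (-4 * ((d : ℚ) - 4))) := by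
  have key : ∀ d : ℕ, 6 ≤ d → ¬ IsC2 d 2 (-4 * ((d : ℚ) - 4)) := by
    intro d hd h
    have h2 := isC2_unique _ _ _ _ h (isC2_two d (by omega))
    have h3 : (6 : ℚ) ≤ d := by exact_mod_cast hd
    linarith
  refine ⟨isC2_unique, isC2_two, key, ?_⟩
  intro h
  exact key 6 le_rfl (h 6 2 (by norm_num) le_rfl)

end

end Pool.Agent.Results.MP_562107_co.WidthTwo
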